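import Pool.Agent.H28.MZ.Defs

/-!
# A positive proportion of zeros is not mapped to zeros by a dilation: exact targets
-/

set_option autoImplicit false

open Complex MeasureTheory Set

namespace Pool.Agent.H28.MZ

open Pool.Agent.H23.GLH (PrimChar)

/-! ### Part A: zeros in rectangles -/

/-- (RC) Cauchy's formula with a weight on a rectangle. -/
def T_RC : Prop :=
  ∀ (K : ℂ → ℂ) (a b c d : ℝ) (ρ : ℂ), Differentiable ℂ K → a < ρ.re → ρ.re < b → c < ρ.im →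
    ρ.im < d →
    (∫ x in a..b, K (x + c * I) / (x + c * I - ρ)) +
      I * (∫ t in c..d, K (b + t * I) / (b + t * I - ρ)) -
      (∫ x in a..b, K (x + d * I) / (x + d * I - ρ)) -
      I * (∫ t in c..d, K (a + t * I) / (a + t * I - ρ)) = 2 * Real.pi * I * K ρ

/-- (CA) Carleman's formula for a rectangle. -/
def T_CA : Prop :=
  ∀ (f : ℂ → ℂ) (a b T₁ T₂ e : ℝ), a < b → 0 < T₁ → T₁ < T₂ →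
    (∀ s : ℂ, T₁ / 2 < s.im → DifferentiableAt ℂ f s) →
    (∀ t ∈ Icc T₁ T₂, f (a + t * I) ≠ 0) →
    (∀ x ∈ Icc a b, f (x + T₁ * I) ≠ 0 ∧ f (x + T₂ * I) ≠ 0) →
    (∀ t ∈ Icc T₁ T₂, f (b + t * I) ≠ 0 ∧ |Real.log ‖f (b + t * I)‖| ≤ e ∧
      ‖deriv f (b + t * I)‖ ≤ e * ‖f (b + t * I)‖) →
    ∃ Z : Finset ℂ, (∀ z : ℂ, z ∈ Z ↔ a < z.re ∧ z.re < b ∧ T₁ < z.im ∧ z.im < T₂ ∧ f z = 0) ∧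
      |2 * Real.pi * ∑ z ∈ Z, (analyticOrderNatAt f z : ℝ) *
            ((T₂ - T₁) / Real.pi * Real.sinh (Real.pi * (z.re - a) / (T₂ - T₁))) *
            Real.sin (Real.pi * (z.im - T₁) / (T₂ - T₁)) -
          (∫ t in T₁..T₂, Real.log ‖f (a + t * I)‖ * Real.sin (Real.pi * (t - T₁) / (T₂ - T₁))) -
          ∫ x in a..b, (Real.log ‖f (x + T₁ * I)‖ + Real.log ‖f (x + T₂ * I)‖) *
            Real.sinh (Real.pi * (x - a) / (T₂ - T₁))| ≤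
        (T₂ - T₁ + 2) * (T₂ - T₁) * Real.cosh (Real.pi * (b - a) / (T₂ - T₁)) * e

/-- (JI) upper bound for zeros from a mean square, on the rectangle `T ≤ Im s ≤ 2T`. -/
def T_JI : Prop :=
  ∀ (f : ℂ → ℂ) (a b T M e Q : ℝ) (S : Finset ℂ) (m : ℂ → ℕ), a < b → 1 ≤ T → 1 ≤ M → 0 ≤ e →
    e ≤ 1 / 4 → 0 < Q →
    (∀ s : ℂ, T / 2 < s.im → DifferentiableAt ℂ f s) →
    (∀ s : ℂ, a - 1 ≤ s.re → s.re ≤ b → T ≤ s.im → s.im ≤ 2 * T → ‖f s‖ ≤ M) →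
    (∀ s : ℂ, b - 1 ≤ s.re → s.re ≤ b + 1 → T / 2 ≤ s.im → s.im ≤ 3 * T → ‖f s - 1‖ ≤ e) →
    (∫ t in T..(2 * T), sn T t * ‖f (a + t * I)‖ ^ 2) ≤ 2 * T / Real.pi * Q →
    (∀ ρ ∈ S, T < ρ.im ∧ ρ.im < 2 * T ∧ ρ.re < b ∧ m ρ ≤ analyticOrderNatAt f ρ) →
    2 * Real.pi * ∑ ρ ∈ S, (m ρ : ℝ) * ph T (max 0 (ρ.re - a)) * sn T ρ.im ≤
      T / Real.pi * Real.log Q + 2 * (b - a) * Real.sinh (Real.pi * (b - a) / T) * Real.log M +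
        4 * (T + 2) * T * Real.cosh (Real.pi * (b - a) / T) * e

/-- (LH) a lower bound on horizontal segments. -/
def T_LH : Prop :=
  ∀ π : PrimChar, ∃ C : ℝ, 0 < C ∧ ∀ T a : ℝ, 10 ≤ T → 1 / 4 ≤ a → a ≤ 1 / 2 →
    (∀ x ∈ Icc a 4, π.L (x + T * I) ≠ 0) →
    ∫ x in a..4, (x - a) * max 0 (-Real.log ‖π.L (x + T * I)‖) ≤ C * Real.log T

/-- (XA) size of the factor of the functional equation. -/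
def T_XA : Prop :=
  ∀ π : PrimChar, ∃ C : ℝ, 0 < C ∧ ∀ t η : ℝ, 1 ≤ t → 0 ≤ η → η ≤ 1 / 2 →
    |‖π.L ((1 / 2 - η : ℝ) + t * I)‖ ^ 2 -
        (π.q * t / (2 * Real.pi)) ^ (2 * η) * ‖π.L ((1 / 2 + η : ℝ) + t * I)‖ ^ 2| ≤
      C / t * ((π.q * t / (2 * Real.pi)) ^ (2 * η) * ‖π.L ((1 / 2 + η : ℝ) + t * I)‖ ^ 2)

/-- (OR) symmetry of the orders of vanishing. -/
def T_OR : Prop :=
  ∀ (π : PrimChar) (ρ : ℂ), 0 < ρ.im →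
    analyticOrderAt π.L ρ = analyticOrderAt π.L (1 - (starRingEnd ℂ) ρ) ∧
      analyticOrderAt π.L ρ ≠ ⊤

/-- (NL) lower bound for the number of zeros. -/
def T_NL : Prop :=
  ∀ (π : PrimChar) (ε : ℝ), 0 < ε → ∃ T₀ : ℝ, ∀ T : ℝ, T₀ ≤ T → ∃ Z : Finset ℂ,
    (∀ ρ : ℂ, ρ ∈ Z ↔ 0 < ρ.re ∧ ρ.re < 1 ∧ T < ρ.im ∧ ρ.im < 2 * T ∧ π.L ρ = 0) ∧
    (1 - ε) * (T * Real.log T / Real.pi ^ 2) ≤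
      ∑ ρ ∈ Z, (analyticOrderNatAt π.L ρ : ℝ) * sn T ρ.im

/-! ### Part B: the mollified second moment -/

/-- (TH) Stirling's formula for the product of the two factors. -/
def T_TH : Prop :=
  ∃ C : ℝ, 0 < C ∧ ∀ (κ : ℝ) (A : ℂ) (t : ℝ), (κ = 0 ∨ κ = 1) → 1 / 2 ≤ A.re → A.re ≤ 3 / 2 →
    1 ≤ t →
    ‖Rf κ A t - cexp ((2 * A - 1) * Real.log (t / (2 * Real.pi)))‖ ≤
      C / t * (t / (2 * Real.pi)) ^ (2 * A.re - 1) * Real.exp (A.im ^ 2 / 2)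

/-- (VV) the smooth cutoff. -/
def T_VV : Prop :=
  (∀ x : ℝ, 0 < x → 0 ≤ V x ∧ V x ≤ 1) ∧ AntitoneOn V (Ioi 0) ∧ ContinuousOn V (Ioi 0) ∧
  (∀ A : ℝ, 0 ≤ A → ∃ C : ℝ, 0 < C ∧ ∀ x : ℝ, 0 < x → V x ≤ C * x ^ (-A)) ∧
  (∀ c x : ℝ, 0 < c → 0 < x →
    Integrable (fun v : ℝ => cexp (-(c + v * I) * Real.log x) * cexp ((c + v * I) ^ 2) /
      (c + v * I)) ∧
    ((V x : ℝ) : ℂ) = (1 / (2 * Real.pi) : ℝ) *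
      ∫ v : ℝ, cexp (-(c + v * I) * Real.log x) * cexp ((c + v * I) ^ 2) / (c + v * I))

/-- (SH) contour shift across a simple pole. -/
def T_SH : Prop :=
  ∀ (F : ℂ → ℂ) (a b M : ℝ) (p : ℂ), a < p.re → p.re < b →
    (∀ s : ℂ, a ≤ s.re → s.re ≤ b → DifferentiableAt ℂ F s) →
    (∀ s : ℂ, a ≤ s.re → s.re ≤ b → ‖F s‖ ≤ M * Real.exp (-|s.im|)) →
    (1 / (2 * Real.pi) : ℝ) * (∫ t : ℝ, F (b + t * I) / (b + t * I - p)) -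
      (1 / (2 * Real.pi) : ℝ) * (∫ t : ℝ, F (a + t * I) / (a + t * I - p)) = F p

/-- (AF) approximate functional equation for `|L|²`. -/
def T_AF : Prop :=
  ∀ (π : PrimChar) (δ : ℝ), 0 < δ → δ ≤ 1 / 10 → ∃ C : ℝ, 0 < C ∧ ∀ σ t X : ℝ,
    1 / 2 ≤ σ → σ ≤ 1 / 2 + δ / 2 → 0 < t → 1 ≤ X →
    ‖((‖π.L (σ + t * I)‖ ^ 2 : ℝ) : ℂ) - SS π σ (1 / X) t -
        (((π.q * t / (2 * Real.pi)) ^ (1 - 2 * σ) : ℝ) : ℂ) *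
          SS π (1 - σ) (4 * Real.pi ^ 2 * X / (π.q * t) ^ 2) t‖ ≤
      C * (t ^ (2 * δ) * X ^ (-(1 / 2) - δ) + X * Real.exp (-(t ^ 2 / 16)))

/-- (LG) distinct logarithms of integers. -/
def T_LG : Prop :=
  ∀ m n : ℕ, 1 ≤ m → 1 ≤ n → m ≠ n →
    1 / (2 * Real.sqrt ((m : ℝ) * n)) ≤ |Real.log m - Real.log n|

/-- (WF) Fourier transforms of the weights. -/
def T_WF : Prop :=
  (∀ (N : ℕ) (u : ℝ), 1 ≤ N → 0 < u →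
    IntegrableOn (W N u) (Ioi 0) ∧ ∫ t in Ioi (0 : ℝ), W N u t = u) ∧
  (∀ (N : ℕ) (u y : ℝ) (w : ℂ), 1 ≤ N → 0 < u → -(N : ℝ) - 1 < w.re →
    IntegrableOn (fun t : ℝ => ((W N u t : ℝ) : ℂ) * (t : ℂ) ^ w * ei (t * y)) (Ioi 0) ∧
    ∫ t in Ioi (0 : ℝ), ((W N u t : ℝ) : ℂ) * (t : ℂ) ^ w * ei (t * y) =
      (((N : ℝ) ^ N / Real.Gamma N * u ^ (-(N : ℝ)) : ℝ) : ℂ) * Complex.Gamma (N + 1 + w) *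
        (((N / u : ℝ) : ℂ) - I * y) ^ (-(N + 1 + w))) ∧
  (∀ (N : ℕ) (B : ℝ), 2 ≤ N → ∃ C : ℝ, 0 < C ∧ ∀ (u y : ℝ) (w : ℂ), 0 < u → -1 ≤ w.re →
    w.re ≤ B →
    ‖∫ t in Ioi (0 : ℝ), ((W N u t : ℝ) : ℂ) * (t : ℂ) ^ w * ei (t * y)‖ ≤
      C * u ^ (1 + w.re) * Real.exp (Real.pi / 2 * |w.im|) * (1 + u * |y|) ^ (-(N : ℝ)))

/-- (O1) off-diagonal terms of the first sum. -/
def T_O1 : Prop :=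
  ∀ (N : ℕ) (π : PrimChar), 4 ≤ N → ∃ C : ℝ, 0 < C ∧ ∀ (σ u : ℝ) (h k : ℕ),
    1 / 2 ≤ σ → σ ≤ 3 / 5 → 1 ≤ u → 1 ≤ h → 1 ≤ k →
    IntegrableOn (fun t : ℝ => ((W N u t : ℝ) : ℂ) * SS π σ (1 / u) t) (Ioi 0) ∧
    ‖(∫ t in Ioi (0 : ℝ), ((W N u t : ℝ) : ℂ) * SS π σ (1 / u) t *
          ei (t * (Real.log k - Real.log h))) - u * DS π h k σ (1 / u)‖ ≤
      C * u ^ (3 - (N : ℝ) / 2) * ((h : ℝ) * k) ^ ((N : ℝ) / 2)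

/-- (O2) off-diagonal terms of the dual sum. -/
def T_O2 : Prop :=
  ∀ (N : ℕ) (π : PrimChar), 4 ≤ N → ∃ C : ℝ, 0 < C ∧ ∀ (σ u : ℝ) (h k : ℕ),
    1 / 2 ≤ σ → σ ≤ 3 / 5 → 1 ≤ u → 1 ≤ h → 1 ≤ k →
    IntegrableOn (fun t : ℝ => ((W N u t : ℝ) : ℂ) *
      (((π.q * t / (2 * Real.pi)) ^ (1 - 2 * σ) : ℝ) : ℂ) *
        SS π (1 - σ) (4 * Real.pi ^ 2 * u / (π.q * t) ^ 2) t) (Ioi 0) ∧
    IntegrableOn (fun t : ℝ => ((W N u t : ℝ) : ℂ) *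
      (((π.q * t / (2 * Real.pi)) ^ (1 - 2 * σ) : ℝ) : ℂ) *
        DS π h k (1 - σ) (4 * Real.pi ^ 2 * u / (π.q * t) ^ 2)) (Ioi 0) ∧
    ‖(∫ t in Ioi (0 : ℝ), ((W N u t : ℝ) : ℂ) *
          (((π.q * t / (2 * Real.pi)) ^ (1 - 2 * σ) : ℝ) : ℂ) *
          SS π (1 - σ) (4 * Real.pi ^ 2 * u / (π.q * t) ^ 2) t *
            ei (t * (Real.log k - Real.log h))) -
        ∫ t in Ioi (0 : ℝ), ((W N u t : ℝ) : ℂ) *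
          (((π.q * t / (2 * Real.pi)) ^ (1 - 2 * σ) : ℝ) : ℂ) *
          DS π h k (1 - σ) (4 * Real.pi ^ 2 * u / (π.q * t) ^ 2)‖ ≤
      C * u ^ (3 - (N : ℝ) / 2) * ((h : ℝ) * k) ^ ((N : ℝ) / 2)

open scoped Classical in
/-- `∑_{(l,q)=1} l^{-s} V(l²/Y)` -/
noncomputable def Sy (q : ℕ) (s Y : ℝ) : ℝ :=
  ∑' l : ℕ, if 1 ≤ l ∧ Nat.Coprime l q then (l : ℝ) ^ (-s) * V ((l : ℝ) ^ 2 / Y) else 0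

/-- (DD) parametrisation of the diagonal. -/
def T_DD : Prop :=
  ∀ (π : PrimChar) (h k : ℕ) (s ξ : ℝ), 1 ≤ h → 1 ≤ k → Nat.Coprime h π.q → Nat.Coprime k π.q →
    0 < ξ → 0 ≤ s →
    co π h * (starRingEnd ℂ) (co π k) * DS π h k s ξ =
      ((PP h k ^ (-s) * Sy π.q (2 * s) (1 / (PP h k * ξ)) : ℝ) : ℂ)

/-- (SY) asymptotic expansion of `Sy`. -/
def T_SY : Prop :=
  ∀ (q : ℕ) (A : ℝ), 1 ≤ q → 1 ≤ A → ∃ C : ℝ, 0 < C ∧ ∀ s Y : ℝ, 4 / 5 ≤ s → s ≤ 6 / 5 → s ≠ 1 →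
    0 < Y →
    |Sy q s Y - zq q s - (Nat.totient q : ℝ) / q * Y ^ ((1 - s) / 2) *
        Real.exp (((1 - s) / 2) ^ 2) / (1 - s)| ≤ C * Y ^ (-A)

/-- (TW) the twisted second moment. -/
def T_TW : Prop :=
  ∀ (N : ℕ) (π : PrimChar) (A δ : ℝ), 4 ≤ N → 1 ≤ A → 2 * A + 2 ≤ N → 0 < δ → δ ≤ 1 / 10 →
    ∃ C : ℝ, 0 < C ∧ ∀ (σ u : ℝ) (h k : ℕ), 1 / 2 < σ → σ ≤ 1 / 2 + δ / 2 → 1 ≤ u → 1 ≤ h →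
      1 ≤ k → Nat.Coprime h π.q → Nat.Coprime k π.q →
      ‖co π h * (starRingEnd ℂ) (co π k) * (∫ t in Ioi (0 : ℝ),
            ((W N u t * ‖π.L (σ + t * I)‖ ^ 2 : ℝ) : ℂ) * ei (t * (Real.log k - Real.log h))) -
          ((u * zq π.q (2 * σ) * PP h k ^ (-σ) +
            (∫ t in Ioi (0 : ℝ), W N u t * (π.q * t / (2 * Real.pi)) ^ (1 - 2 * σ)) *
              zq π.q (2 - 2 * σ) * PP h k ^ (σ - 1) : ℝ) : ℂ)‖ ≤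
        C * (u ^ (1 / 2 + δ) + u ^ (3 - (N : ℝ) / 2) * ((h : ℝ) * k) ^ ((N : ℝ) / 2) +
          u * (PP h k / u) ^ A)

/-- (PS) the quadratic form of the dual term is non-negative. -/
def T_PS : Prop :=
  ∀ (b : ℕ → ℝ) (Y : ℕ) (σ : ℝ), 1 / 2 ≤ σ → σ ≤ 1 → 0 ≤ Qd b Y σ

/-- (ZQ) the function `zq` on the real axis. -/
def T_ZQ : Prop :=
  ∀ q : ℕ, 1 ≤ q →
    (∃ x₀ : ℝ, x₀ < 1 ∧ ∀ x : ℝ, x₀ < x → x < 1 → zq q x < 0) ∧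
    (∃ c₁ c₂ : ℝ, 0 < c₁ ∧ 0 < c₂ ∧ ∀ x : ℝ, 1 < x → x ≤ 2 →
      c₁ / (x - 1) ≤ zq q x ∧ zq q x ≤ c₂ / (x - 1)) ∧
    ∀ x : ℝ, 1 < x → zq q x =
      ∑' l : ℕ, if 1 ≤ l ∧ Nat.Coprime l q then (l : ℝ) ^ (-x) else 0

/-- (MM) the mollified second moment. -/
def T_MM : Prop :=
  ∀ (π : PrimChar) (δ₁ : ℝ), 0 < δ₁ → δ₁ < 1 / 2 → ∃ N₀ : ℕ, ∀ N : ℕ, N₀ ≤ N →
    ∃ C δ σ₁ : ℝ, 0 < C ∧ 0 < δ ∧ 1 / 2 < σ₁ ∧ ∀ (σ u : ℝ) (b : ℕ → ℝ) (Y : ℕ),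
      1 / 2 < σ → σ ≤ σ₁ → 1 ≤ u → Mol π.q b → (Y : ℝ) ≤ u ^ (1 / 2 - δ₁) →
      IntegrableOn (fun t : ℝ =>
        W N u t * (‖π.L (σ + t * I)‖ ^ 2 * ‖Bf π b Y (σ + t * I)‖ ^ 2)) (Ioi 0) ∧
      (∫ t in Ioi (0 : ℝ), W N u t * (‖π.L (σ + t * I)‖ ^ 2 * ‖Bf π b Y (σ + t * I)‖ ^ 2)) ≤
        u * (zq π.q (2 * σ) * Qf b Y (2 * σ) + C * u ^ (-δ))

/-- `∏_{p ∣ d} 1/(p^s - 1)` -/
noncomputable def gS (s : ℝ) (d : ℕ) : ℝ := ∏ p ∈ d.primeFactors, 1 / ((p : ℝ) ^ s - 1)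

open scoped Classical in
/-- the sum of `gS` over squarefree `d ≤ Y` prime to `q` -/
noncomputable def GS (q Y : ℕ) (s : ℝ) : ℝ :=
  ∑ d ∈ (Finset.Icc 1 Y).filter (fun d => Squarefree d ∧ Nat.Coprime d q), gS s d

/-- (QA) Selberg's weights. -/
def T_QA : Prop :=
  ∀ (q Y : ℕ) (s : ℝ), 1 ≤ q → 1 ≤ Y → 1 < s → ∃ b : ℕ → ℝ, Mol q b ∧ Qf b Y s * GS q Y s = 1

/-- (QR) Rankin's bound for the tail. -/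
def T_QR : Prop :=
  ∀ q : ℕ, 1 ≤ q → ∃ C : ℝ, 1 ≤ C ∧ ∀ (s : ℝ) (Y : ℕ), 1 < s → s ≤ 2 → 2 ≤ Y →
    1 ≤ (s - 1) * Real.log Y →
    zq q s - GS q Y s ≤
      C * ((s - 1) * Real.log Y) * Real.exp (-((s - 1) * Real.log Y)) * zq q s

/-- (QB) the optimal mollifier (Selberg's sieve). -/
def T_QB : Prop :=
  ∀ q : ℕ, 1 ≤ q → ∃ C : ℝ, 1 ≤ C ∧ ∀ (s : ℝ) (Y : ℕ), 1 < s → s ≤ 2 → 2 ≤ Y →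
    1 ≤ (s - 1) * Real.log Y →
    C * ((s - 1) * Real.log Y) * Real.exp (-((s - 1) * Real.log Y)) ≤ 1 / 2 →
    ∃ b : ℕ → ℝ, Mol q b ∧ zq q s * Qf b Y s ≤
      1 + C * ((s - 1) * Real.log Y) * Real.exp (-((s - 1) * Real.log Y))

/-- (MX) from Gamma weights to the sine weight. -/
def T_MX : Prop :=
  ∀ ε : ℝ, 0 < ε → ∃ N₁ : ℕ, ∀ N : ℕ, N₁ ≤ N → ∀ (T Q : ℝ) (f : ℝ → ℝ), 0 < T → 0 ≤ Q →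
    Continuous f → (∀ t, 0 ≤ f t) →
    (∀ u : ℝ, T / 2 ≤ u → u ≤ 4 * T → IntegrableOn (fun t => W N u t * f t) (Ioi 0) ∧
      ∫ t in Ioi (0 : ℝ), W N u t * f t ≤ u * Q) →
    ∫ t in T..(2 * T), sn T t * f t ≤ (1 + ε) * Q * (2 * T / Real.pi)

/-- (UB) from Gamma weights to a dyadic interval. -/
def T_UB : Prop :=
  ∀ N : ℕ, 1 ≤ N → ∃ C : ℝ, 0 < C ∧ ∀ (T Q : ℝ) (f : ℝ → ℝ), 0 < T → 0 ≤ Q →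
    Continuous f → (∀ t, 0 ≤ f t) → IntegrableOn (fun t => W N T t * f t) (Ioi 0) →
    ∫ t in Ioi (0 : ℝ), W N T t * f t ≤ T * Q → ∫ t in T..(2 * T), f t ≤ C * T * Q

/-- (E1) mean square of the first mollified function. -/
def T_E1 : Prop :=
  ∀ (χ : PrimChar) (θ : ℝ), 0 < θ → θ < 1 / 2 → ∃ C₁ R₁ : ℝ, 0 < C₁ ∧ 1 ≤ R₁ ∧
    ∀ R ε : ℝ, R₁ ≤ R → 0 < ε → ∃ C₂ T₀ : ℝ, ∀ T : ℝ, T₀ ≤ T →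
      ∃ b : ℕ → ℝ, Mol χ.q b ∧
        (∫ t in T..(2 * T), sn T t *
            ‖χ.L ((1 / 2 - R / Real.log T : ℝ) + t * I) *
              Bf χ b ⌊T ^ θ⌋₊ ((1 / 2 + R / Real.log T : ℝ) + t * I)‖ ^ 2) ≤
          2 * T / Real.pi * (Real.exp (2 * R) * (1 + C₁ * R * Real.exp (-(2 * θ * R)) + ε)) ∧
        (∫ t in (T / 2)..(3 * T),
            ‖χ.L ((1 / 2 - R / Real.log T : ℝ) + t * I) *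
              Bf χ b ⌊T ^ θ⌋₊ ((1 / 2 + R / Real.log T : ℝ) + t * I)‖ ^ 2) ≤ C₂ * T

/-- (E2) mean square of the second mollified function. -/
def T_E2 : Prop :=
  ∀ (ψ : PrimChar) (r θ : ℝ), 1 < r → r < 2 → 0 < θ → θ < 1 / 2 → ∃ C₂ R₁ : ℝ, 0 < C₂ ∧ 1 ≤ R₁ ∧
    ∀ R : ℝ, R₁ ≤ R → ∃ T₀ : ℝ, ∀ T : ℝ, T₀ ≤ T →
      ∃ b : ℕ → ℝ, Mol ψ.q b ∧ ∀ τ : ℝ, |τ| ≤ T / 4 →
        (∫ t in (T / 2)..(3 * T),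
            ‖ψ.L ((1 / 2 - r * (R / Real.log T) : ℝ) + (r * t + τ : ℝ) * I) *
              Bf ψ b ⌊T ^ θ⌋₊ ((1 / 2 + r * (R / Real.log T) : ℝ) + (r * t + τ : ℝ) * I)‖ ^ 2) ≤
          C₂ * Real.exp (2 * r * R) * T

/-! ### Part C: the cross term -/

/-- (SM) a long smooth sum for `L`. -/
def T_SM : Prop :=
  ∀ (π : PrimChar) (ε A : ℝ), 0 < ε → ε ≤ 1 / 2 → 0 < A → ∃ T₀ : ℝ, ∀ t x M : ℝ, T₀ ≤ t →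
    1 / 4 ≤ x → x ≤ 1 / 2 → t ^ (1 + ε) ≤ M → M ≤ t ^ (3 : ℝ) →
    ‖π.L (x + t * I) - ∑' k : ℕ, co π k * (k : ℂ) ^ (-(x + t * I : ℂ)) *
        ((V (k / M) : ℝ) : ℂ)‖ ≤ t ^ (-A)

/-- (GL) Gaussian average of `L`. -/
def T_GL : Prop :=
  ∀ (π : PrimChar) (ε A : ℝ), 0 < ε → ε ≤ 1 / 2 → 0 < A → ∃ T₀ : ℝ, ∀ T u a x : ℝ, T₀ ≤ T →
    T ≤ u → u ≤ 2 * T → 1 / 4 ≤ a → a ≤ 1 / 2 → 0 < x →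
    ‖Ga (T ^ (1 - ε)) (T / 4) u (fun t : ℝ => π.L (a + t * I) * ei (t * Real.log x)) -
        Sg π a (T ^ (1 - ε)) u x‖ ≤ T ^ (-A) * (1 + x)

/-- the inner sum over `k`, restricted to `Z < (k l)^r` -/
noncomputable def Kt (χ ψ : PrimChar) (r τ η H M u Z : ℝ) (h l : ℕ) : ℂ :=
  ∑' k : ℕ, if Z < ((k : ℝ) * l) ^ r then (starRingEnd ℂ) (co ψ k) *
    (((k : ℝ) ^ (-(1 / 2 - r * η)) * V (k / M) : ℝ) : ℂ) * ei (τ * (Real.log k + Real.log l)) *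
      Sg χ (1 / 2 - η) H u (((k : ℝ) * l) ^ r / h) else 0

/-- (EX) expansion of the cross term. -/
def T_EX : Prop :=
  ∀ (χ ψ : PrimChar) (r ε R : ℝ), 1 < r → r < 2 → 0 < ε → ε ≤ 1 / 10 → 1 ≤ R →
    ∃ T₀ : ℝ, ∀ (T u : ℝ) (P : Par), T₀ ≤ T → T ≤ u → u ≤ 2 * T → P.r = r → |P.τ| ≤ T / 4 →
      P.η = R / Real.log T → (∀ h, |P.b₁ h| ≤ 1) → (∀ h, |P.b₂ h| ≤ 1) → (P.Y₁ : ℝ) ≤ T →
      (P.Y₂ : ℝ) ≤ T →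
      ‖Ga (T ^ (1 - ε)) (T / 4) u (fun t : ℝ => U₁ χ P ((1 / 2 - P.η : ℝ) + t * I) *
            (starRingEnd ℂ) (U₂ ψ P ((1 / 2 - P.η : ℝ) + t * I))) -
          ∑ h ∈ Finset.Icc 1 P.Y₁, ∑ l ∈ Finset.Icc 1 P.Y₂,
            ((P.b₁ h * P.b₂ l * ((h : ℝ) ^ (-(1 / 2 + P.η)) * (l : ℝ) ^ (-(1 / 2 + r * P.η))) : ℝ) :
                ℂ) * co χ h * (starRingEnd ℂ) (co ψ l) *
              Kt χ ψ r P.τ P.η (T ^ (1 - ε)) (T ^ (1 + ε)) u 0 h l‖ ≤ 1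

/-- (TV) the part without need of cancellation. -/
def T_TV : Prop :=
  ∀ r : ℝ, 1 < r → r < 3 / 2 → ∃ ε₁ C₀ : ℝ, 0 < ε₁ ∧ 0 < C₀ ∧ ∀ ε R : ℝ, 0 < ε → ε ≤ ε₁ → 1 ≤ R →
    ∃ T₀ : ℝ, ∀ T : ℝ, T₀ ≤ T →
      (∀ K : ℕ, Summable fun n : ℕ => dv n * (n : ℝ) ^ (-(1 / 2 - R / Real.log T)) *
        Real.exp (-((T ^ (1 - ε)) ^ 2 * (r * Real.log K - Real.log n) ^ 2 / 4))) ∧
      ∑ K ∈ Finset.Icc 1 ⌊(T ^ (2 * r / (1 + r) - 4 * ε)) ^ (1 / r)⌋₊,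
        dv K * (K : ℝ) ^ (-(1 / 2 - r * (R / Real.log T))) *
          (∑' n : ℕ, if n = 0 then 0 else dv n * (n : ℝ) ^ (-(1 / 2 - R / Real.log T)) *
            Real.exp (-((T ^ (1 - ε)) ^ 2 * (r * Real.log K - Real.log n) ^ 2 / 4))) ≤ C₀

/-- the Fourier transform of `gf` at `ξ` -/
noncomputable def gh (a H u x ξ : ℝ) : ℂ :=
  ∫ y in Ioi (0 : ℝ), gf a H u x y * ei (-(2 * Real.pi * ξ * y))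

/-- (PN) Poisson summation. -/
def T_PN : Prop :=
  ∀ (π : PrimChar) (a H u x : ℝ), 0 < x → 1 ≤ H → 0 ≤ a → a ≤ 1 →
    (Summable fun ν : ℤ => gh a H u x (ν / π.q)) →
    Sg π a H u x = (1 / (π.q : ℂ)) * ∑' ν : ℤ,
      (∑ b ∈ Finset.range π.q, π.χ (b : ZMod π.q) * ei (2 * Real.pi * b * ν / π.q)) *
        gh a H u x (ν / π.q)

/-- (FT) bounds for the Fourier transform. -/
def T_FT : Prop :=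
  ∀ ε A : ℝ, 0 < ε → ε ≤ 1 / 10 → 0 < A → ∃ T₀ : ℝ, ∀ T u a x ξ : ℝ, T₀ ≤ T → T ≤ u →
    u ≤ 2 * T → 1 / 4 ≤ a → a ≤ 1 / 2 → 1 ≤ x → x ≤ T ^ (10 : ℝ) →
    ((0 ≤ ξ ∨ ξ * x < -(u / Real.pi) ∨ (-(u / (4 * Real.pi)) < ξ * x ∧ ξ < 0)) →
      ‖gh a (T ^ (1 - ε)) u x ξ‖ ≤ T ^ (-A) / (1 + ξ ^ 2)) ∧
    (-(u / Real.pi) ≤ ξ * x → ξ * x ≤ -(u / (4 * Real.pi)) →
      ‖gh a (T ^ (1 - ε)) u x ξ - Li a (T ^ (1 - ε)) u (T ^ (2 * ε - 1)) x (-ξ)‖ ≤ T ^ (-A))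

/-- (PO) the sum over `m` after Poisson summation. -/
def T_PO : Prop :=
  ∀ (π : PrimChar) (ε A : ℝ), 0 < ε → ε ≤ 1 / 10 → 0 < A → ∃ T₀ : ℝ, ∀ T u a x : ℝ, T₀ ≤ T →
    T ≤ u → u ≤ 2 * T → 1 / 4 ≤ a → a ≤ 1 / 2 → 1 ≤ x → x ≤ T ^ (10 : ℝ) →
    ‖Sg π a (T ^ (1 - ε)) u x - Mn π a (T ^ (1 - ε)) u (T ^ (2 * ε - 1)) x‖ ≤ T ^ (-A)

/-- (VS) van der Corput's second derivative test for sums. -/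
def T_VS : Prop :=
  ∀ α : ℝ, 1 ≤ α → ∃ C : ℝ, 0 < C ∧ ∀ (A B : ℤ) (f f' f'' : ℝ → ℝ) (lam : ℝ), 0 < lam → A ≤ B →
    (∀ x ∈ Icc (A : ℝ) B, HasDerivAt f (f' x) x) → (∀ x ∈ Icc (A : ℝ) B, HasDerivAt f' (f'' x) x) →
    (∀ x ∈ Icc (A : ℝ) B, lam ≤ f'' x ∧ f'' x ≤ α * lam) →
    ‖∑ n ∈ Finset.Icc A B, ei (2 * Real.pi * f n)‖ ≤
      C * (((B : ℝ) - A + 1) * Real.sqrt lam + 1 / Real.sqrt lam)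

open scoped Classical in
/-- (KS) the sum over `k` at a fixed frequency. -/
def T_KS : Prop :=
  ∀ (q : ℕ) (ψ : PrimChar) (r : ℝ), 1 ≤ q → 1 < r → r < 3 / 2 → ∃ c₀ C : ℝ, 0 < c₀ ∧ 0 < C ∧
    ∀ (T u τ η M Z v : ℝ) (h l μ : ℕ), 1 ≤ T → T ≤ u → u ≤ 2 * T → |τ| ≤ c₀ * T → 0 ≤ η →
      η ≤ 1 / 16 → 0 < M → 0 ≤ Z → 1 ≤ h → 1 ≤ l → 1 ≤ μ → |v| ≤ 1 / 10 →
      (∃ B : ℕ, ∀ k : ℕ, μ * (((k : ℝ) * l) ^ r / h) / q ≤ u / Real.pi → k ≤ B) ∧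
      ‖∑' k : ℕ, if Z < ((k : ℝ) * l) ^ r ∧ u / (4 * Real.pi) ≤ μ * (((k : ℝ) * l) ^ r / h) / q ∧
          μ * (((k : ℝ) * l) ^ r / h) / q ≤ u / Real.pi then
          (starRingEnd ℂ) (co ψ k) * (((k : ℝ) ^ (-(1 / 2 - r * η)) * V (k / M) *
            (((k : ℝ) * l) ^ r / h) ^ (1 - (1 / 2 - η)) : ℝ) : ℂ) *
            ei (τ * Real.log k + 2 * Real.pi * (μ / q) * (((k : ℝ) * l) ^ r / h) * Real.exp v)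
          else 0‖ ≤
        C * (T / μ) ^ (1 / 2 + η) * ((T * h / μ) ^ (1 / r) / l) ^ (-(1 / 2 - r * η)) *
          (Real.sqrt T + (T * h / μ) ^ (1 / r) / l / Real.sqrt T)

/-- (NT) the part with cancellation. -/
def T_NT : Prop :=
  ∀ (χ ψ : PrimChar) (r : ℝ), 1 < r → r < 3 / 2 → ∃ c₀ : ℝ, 0 < c₀ ∧ ∀ δ : ℝ, 0 < δ → δ ≤ 1 / 2 →
    ∃ ε₁ : ℝ, 0 < ε₁ ∧ ∀ ε R : ℝ, 0 < ε → ε ≤ ε₁ → 1 ≤ R → ∃ T₀ : ℝ, ∀ (T u τ : ℝ) (h l : ℕ),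
      T₀ ≤ T → T ≤ u → u ≤ 2 * T → |τ| ≤ c₀ * T → 1 ≤ h → 1 ≤ l → (h : ℝ) ≤ Real.sqrt T →
      (l : ℝ) ≤ Real.sqrt T →
      (Summable fun k : ℕ => ‖(starRingEnd ℂ) (co ψ k) *
        (((k : ℝ) ^ (-(1 / 2 - r * (R / Real.log T))) * V (k / T ^ (1 + ε)) : ℝ) : ℂ) *
          ei (τ * (Real.log k + Real.log l)) *
            Sg χ (1 / 2 - R / Real.log T) (T ^ (1 - ε)) u (((k : ℝ) * l) ^ r / h)‖) ∧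
      ‖Kt χ ψ r τ (R / Real.log T) (T ^ (1 - ε)) (T ^ (1 + ε)) u
          (T ^ (2 * r / (1 + r) - 4 * ε)) h l‖ ≤
        T ^ (-(1 / 2) + δ) * Real.sqrt (h * l)

/-- (E3) the cross term is bounded. -/
def T_E3 : Prop :=
  ∀ (χ ψ : PrimChar) (r θ θ' : ℝ), 1 < r → r < 3 / 2 → 0 < θ → 0 < θ' → θ + θ' < 1 / 2 →
    ∃ c₀ C₀ ε : ℝ, 0 < c₀ ∧ c₀ ≤ 1 / 4 ∧ 0 < C₀ ∧ 0 < ε ∧ ε < 1 ∧ ∀ R : ℝ, 1 ≤ R →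
    ∃ T₀ : ℝ, ∀ (T u : ℝ) (P : Par), T₀ ≤ T → T ≤ u → u ≤ 2 * T → P.r = r → |P.τ| ≤ c₀ * T →
      P.η = R / Real.log T → (∀ h, |P.b₁ h| ≤ 1) → (∀ h, |P.b₂ h| ≤ 1) → (P.Y₁ : ℝ) ≤ T ^ θ →
      (P.Y₂ : ℝ) ≤ T ^ θ' →
      ‖Ga (T ^ (1 - ε)) (T / 4) u (fun t : ℝ => U₁ χ P ((1 / 2 - P.η : ℝ) + t * I) *
            (starRingEnd ℂ) (U₂ ψ P ((1 / 2 - P.η : ℝ) + t * I)))‖ ≤ C₀

/-- (CV) from local Gaussian averages to the sine weight. -/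
def T_CV : Prop :=
  ∀ (T H C₀ C₁ : ℝ) (f : ℝ → ℂ), 1 ≤ T → 0 < H → ContinuousOn f (Icc (T / 2) (3 * T)) →
    (∀ u ∈ Icc T (2 * T), ‖Ga H (T / 4) u f‖ ≤ C₀) →
    (∫ t in (T / 2)..(3 * T), ‖f t‖) ≤ C₁ * T →
    ‖∫ t in T..(2 * T), (sn T t : ℂ) * f t‖ ≤
      C₀ * (2 * T / Real.pi) + C₁ * T * (2 * H / T + 2 * Real.exp (-(T / (4 * H)) ^ 2))

/-! ### Part D: assembly -/

/-- (UR) the auxiliary function far to the right. -/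
def T_UR : Prop :=
  ∃ C : ℝ, 0 < C ∧ ∀ (χ ψ : PrimChar) (P : Par) (s : ℂ), 1 ≤ P.r → 0 ≤ P.η → 0 ≤ P.c →
    P.c ≤ 1 → Mol χ.q P.b₁ → Mol ψ.q P.b₂ → 1 ≤ P.Y₁ → 1 ≤ P.Y₂ → 3 ≤ s.re →
    ‖U χ ψ P s - 1‖ ≤ C * (2 : ℝ) ^ (-s.re)

/-- (UG) growth and holomorphy of the auxiliary function. -/
def T_UG : Prop :=
  ∀ (χ ψ : PrimChar) (r : ℝ), 1 < r → r < 2 → ∃ C T₀ : ℝ, 0 < C ∧ ∀ (T : ℝ) (P : Par), T₀ ≤ T →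
    P.r = r → |P.τ| ≤ T / 4 → 0 ≤ P.η → P.η ≤ 1 → 0 ≤ P.c → P.c ≤ 1 → Mol χ.q P.b₁ →
    Mol ψ.q P.b₂ → (P.Y₁ : ℝ) ≤ T → (P.Y₂ : ℝ) ≤ T →
    (∀ s : ℂ, T / 2 < s.im → DifferentiableAt ℂ (U χ ψ P) s) ∧
    (∀ s : ℂ, -1 ≤ s.re → T ≤ s.im → s.im ≤ 2 * T → ‖U χ ψ P s‖ ≤ T ^ C) ∧
    ∀ s : ℂ, T / 2 < s.im →
      min (analyticOrderAt χ.L s) (analyticOrderAt ψ.L (wl P.r P.τ s)) ≤
        analyticOrderAt (U χ ψ P) s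

/-- (IU) the mean square of the auxiliary function is small. -/
def T_IU : Prop :=
  ∀ (χ ψ : PrimChar) (r : ℝ), 1 < r → r < 3 / 2 → ∃ R c c₀ T₀ : ℝ, 1 ≤ R ∧ 0 < c ∧ c < 1 / 2 ∧
    0 < c₀ ∧ c₀ ≤ 1 / 4 ∧ ∀ T τ : ℝ, T₀ ≤ T → |τ| ≤ c₀ * T →
      ∃ P : Par, P.r = r ∧ P.τ = τ ∧ P.η = R / Real.log T ∧ 0 ≤ P.c ∧ P.c ≤ 1 ∧
        Mol χ.q P.b₁ ∧ Mol ψ.q P.b₂ ∧ 1 ≤ P.Y₁ ∧ 1 ≤ P.Y₂ ∧ (P.Y₁ : ℝ) ≤ T ∧ (P.Y₂ : ℝ) ≤ T ∧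
        (∫ t in T..(2 * T), sn T t * ‖U χ ψ P ((1 / 2 - P.η : ℝ) + t * I)‖ ^ 2) ≤
          2 * T / Real.pi * (Real.exp (2 * R) * (1 - c))

/-- (FI) the final theorem. -/
def T_FI : Prop :=
  ∀ (χ ψ : PrimChar) (r : ℝ), 1 < r → r < 3 / 2 → ∃ κ c₀ T₀ : ℝ, 0 < κ ∧ 0 < c₀ ∧
    ∀ T τ : ℝ, T₀ ≤ T → |τ| ≤ c₀ * T → ∃ Z : Finset ℂ,
      (∀ ρ ∈ Z, T < ρ.im ∧ ρ.im < 2 * T ∧ 0 < ρ.re ∧ ρ.re < 1 ∧ χ.L ρ = 0 ∧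
        analyticOrderAt ψ.L (1 / 2 + r * (ρ - 1 / 2) + τ * I) < analyticOrderAt χ.L ρ) ∧
      κ * (T * Real.log T) ≤ ∑ ρ ∈ Z, (analyticOrderNatAt χ.L ρ : ℝ)

end Pool.Agent.H28.MZ
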