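import Mathlib
import Pool.Agent.H23.GLH.Defs

/-!
# A positive proportion of zeros is not mapped to zeros by a dilation: definitions
-/

set_option autoImplicit false

open Complex MeasureTheory Set

namespace Pool.Agent.H28.MZ

open Pool.Agent.H23.GLH (PrimChar)

/-- `e^{ix}` -/
noncomputable def ei (x : ℝ) : ℂ := cexp ((x : ℂ) * I)

/-- the coefficient `χ(n)` of `n^{-s}`, with value `0` at `n = 0` -/
noncomputable def co (π : PrimChar) (n : ℕ) : ℂ :=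
  if n = 0 then 0 else π.χ (n : ZMod π.q)

/-- `1/2 + r (s - 1/2) + i τ` -/
noncomputable def wl (r τ : ℝ) (s : ℂ) : ℂ := 1 / 2 + r * (s - 1 / 2) + τ * I

/-- the Dirichlet polynomial `∑_{h ≤ Y} b(h) χ(h) h^{-s}` -/
noncomputable def Bf (π : PrimChar) (b : ℕ → ℝ) (Y : ℕ) (s : ℂ) : ℂ :=
  ∑ h ∈ Finset.Icc 1 Y, (b h : ℂ) * co π h * (h : ℂ) ^ (-s)

/-! ### The rectangle -/

/-- the weight `sin (π (t - T) / T)` on `[T, 2T]` -/
noncomputable def sn (T t : ℝ) : ℝ := Real.sin (Real.pi * (t - T) / T)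

/-- `(T/π) sinh (π x / T)` -/
noncomputable def ph (T x : ℝ) : ℝ := T / Real.pi * Real.sinh (Real.pi * x / T)

/-! ### The second moment -/

/-- the product of the two factors `Γ_ℂ cos` -/
noncomputable def Rf (κ : ℝ) (A : ℂ) (t : ℝ) : ℂ :=
  (Gammaℂ (A + t * I) * Complex.cos (Real.pi * (A + t * I - κ) / 2)) *
    (Gammaℂ (A - t * I) * Complex.cos (Real.pi * (A - t * I - κ) / 2))

/-- the smooth cutoff `(1/(2πi)) ∫ x^{-z} e^{z²} dz/z` -/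
noncomputable def V (x : ℝ) : ℝ :=
  1 / (2 * Real.sqrt Real.pi) * ∫ v in Ioi (Real.log x), Real.exp (-(v ^ 2 / 4))

/-- the Gamma weight `(N^N/Γ(N)) (t/u)^N e^{-Nt/u}` -/
noncomputable def W (N : ℕ) (u t : ℝ) : ℝ :=
  (N : ℝ) ^ N / Real.Gamma N * (t / u) ^ N * Real.exp (-(N * t / u))

/-- the double sum `∑_{m,n} χ(m) conj χ(n) (mn)^{-s} V(m n ξ) (n/m)^{it}` -/
noncomputable def SS (π : PrimChar) (s ξ t : ℝ) : ℂ :=
  ∑' p : ℕ × ℕ, co π p.1 * (starRingEnd ℂ) (co π p.2) *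
    ((((p.1 : ℝ) * p.2) ^ (-s) * V ((p.1 : ℝ) * p.2 * ξ) : ℝ) : ℂ) *
      ei (t * (Real.log p.2 - Real.log p.1))

open scoped Classical in
/-- the diagonal part (`m h = n k`) of the double sum -/
noncomputable def DS (π : PrimChar) (h k : ℕ) (s ξ : ℝ) : ℂ :=
  ∑' p : ℕ × ℕ, if p.1 * h = p.2 * k then co π p.1 * (starRingEnd ℂ) (co π p.2) *
    ((((p.1 : ℝ) * p.2) ^ (-s) * V ((p.1 : ℝ) * p.2 * ξ) : ℝ) : ℂ) else 0

/-- the value at a real point of the Riemann zeta function without the Euler factors at `p ∣ q` -/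
noncomputable def zq (q : ℕ) (x : ℝ) : ℝ :=
  (riemannZeta x * ∏ p ∈ q.primeFactors, (1 - (p : ℂ) ^ (-(x : ℂ)))).re

/-- `h k / gcd(h,k)²` -/
noncomputable def PP (h k : ℕ) : ℝ := (h : ℝ) * k / (Nat.gcd h k : ℝ) ^ 2

/-- the quadratic form `∑ b(h) b(k) (h,k)^s (hk)^{-s}` -/
noncomputable def Qf (b : ℕ → ℝ) (Y : ℕ) (s : ℝ) : ℝ :=
  ∑ h ∈ Finset.Icc 1 Y, ∑ k ∈ Finset.Icc 1 Y,
    b h * b k * ((Nat.gcd h k : ℝ) ^ s * ((h : ℝ) * k) ^ (-s))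

/-- the quadratic form of the dual term -/
noncomputable def Qd (b : ℕ → ℝ) (Y : ℕ) (σ : ℝ) : ℝ :=
  ∑ h ∈ Finset.Icc 1 Y, ∑ k ∈ Finset.Icc 1 Y,
    b h * b k * (((h : ℝ) * k) ^ (-σ) * (PP h k) ^ (σ - 1))

/-- a mollifier: real coefficients bounded by `1`, supported on integers prime to `q` -/
structure Mol (q : ℕ) (b : ℕ → ℝ) : Prop where
  one : b 1 = 1
  le : ∀ h, |b h| ≤ 1
  cop : ∀ h, ¬ Nat.Coprime h q → b h = 0

/-! ### The cross term -/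

/-- the Gaussian average over the window `|t - u| ≤ D` -/
noncomputable def Ga (H D u : ℝ) (f : ℝ → ℂ) : ℂ :=
  (1 / (Real.sqrt Real.pi * H) : ℝ) *
    ∫ t in (u - D)..(u + D), ((Real.exp (-((t - u) / H) ^ 2) : ℝ) : ℂ) * f t

/-- the function `y ↦ y^{-a} (x/y)^{iu} exp(-H² log²(x/y)/4)` -/
noncomputable def gf (a H u x y : ℝ) : ℂ :=
  ((y ^ (-a) * Real.exp (-(H ^ 2 * (Real.log x - Real.log y) ^ 2 / 4)) : ℝ) : ℂ) *
    ei (u * (Real.log x - Real.log y))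

/-- `∑ χ(m) m^{-a} (x/m)^{iu} exp(-H² log²(x/m)/4)` -/
noncomputable def Sg (π : PrimChar) (a H u x : ℝ) : ℂ := ∑' m : ℕ, co π m * gf a H u x m

/-- the Gauss sum `∑_b χ(b) e(-bμ/q)` -/
noncomputable def Gs (π : PrimChar) (μ : ℕ) : ℂ :=
  ∑ b ∈ Finset.range π.q, π.χ (b : ZMod π.q) * ei (-(2 * Real.pi * b * μ / π.q))

/-- the local integral at the frequency `-μ/q` -/
noncomputable def Li (a H u v₀ x ξ : ℝ) : ℂ :=
  ((x ^ (1 - a) : ℝ) : ℂ) * ∫ v in (-v₀)..v₀,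
    ((Real.exp ((1 - a) * v - H ^ 2 * v ^ 2 / 4) : ℝ) : ℂ) *
      ei (2 * Real.pi * ξ * x * Real.exp v - u * v)

open scoped Classical in
/-- the frequencies `μ ≥ 1` with `u/(4π) ≤ μ x / q ≤ u/π` -/
noncomputable def Fr (q : ℕ) (u x : ℝ) : Finset ℕ :=
  (Finset.Icc 1 ⌊q * u⌋₊).filter fun μ : ℕ =>
    u / (4 * Real.pi) ≤ μ * x / q ∧ μ * x / q ≤ u / Real.pi

/-- the main part of `Sg` after Poisson summation -/
noncomputable def Mn (π : PrimChar) (a H u v₀ x : ℝ) : ℂ :=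
  (1 / (π.q : ℂ)) * ∑ μ ∈ Fr π.q u x, Gs π μ * Li a H u v₀ x (μ / π.q)

/-- the number of divisors -/
noncomputable def dv (n : ℕ) : ℝ := (n.divisors.card : ℝ)

/-! ### The auxiliary function -/

/-- the parameters of the auxiliary function -/
structure Par where
  r : ℝ
  τ : ℝ
  η : ℝ
  b₁ : ℕ → ℝ
  Y₁ : ℕ
  b₂ : ℕ → ℝ
  Y₂ : ℕ
  c : ℝ

/-- the mollified first function -/
noncomputable def U₁ (χ : PrimChar) (P : Par) (s : ℂ) : ℂ :=
  χ.L s * Bf χ P.b₁ P.Y₁ (s + 2 * P.η)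

/-- the mollified second function -/
noncomputable def U₂ (ψ : PrimChar) (P : Par) (s : ℂ) : ℂ :=
  ψ.L (wl P.r P.τ s) * Bf ψ P.b₂ P.Y₂ (wl P.r P.τ s + 2 * P.r * P.η)

/-- the auxiliary function -/
noncomputable def U (χ ψ : PrimChar) (P : Par) (s : ℂ) : ℂ :=
  (1 - P.c) * U₁ χ P s + P.c * U₂ ψ P s

end Pool.Agent.H28.MZ
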